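import Pool.Agent.NU.NMn

/-!
# MP_59bf7c_an, a reduction to nearly independent sets

Let `Λ` be a subset of a torsion-free abelian group with property `(⋆)` for some `δ > 0`. For all
`m ≥ 1` and `η > 0` the set `Λ` is a union of `numParts δ η m` sets `T i`, such that every finite
subset `A` of a set `T i` has an `m`-independent subset (no nontrivial relation with integer
coefficients of absolute value at most `m`) with at least `(1 - η) |A|` elements.
-/

open Pool.Agent.NU

namespace Pool.Agent.Results.MP_59bf7c_an.NearlyIndependentUnion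

/-- Sets with property `(⋆)` are finite unions of nearly independent sets. -/
theorem result.{u} {G : Type u} [AddCommGroup G] [IsAddTorsionFree G] {δ η : ℝ} (hδ : 0 < δ)
    (hη : 0 < η) {m : ℕ} (hm : 1 ≤ m) {Λ : Set G} (hΛ : Proportional δ Λ) :
    ∃ T : Fin (numParts δ η m) → Set G, Λ = ⋃ i, T i ∧
      ∀ i, ∀ A : Finset G, (↑A : Set G) ⊆ T i →
        ∃ B ⊆ A, MIndep m B ∧ (1 - η) * A.card ≤ B.card :=
  main hδ hη hm hΛ

end Pool.Agent.Results.MP_59bf7c_an.NearlyIndependentUnion
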